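import Pool.Agent.Helper18.NF.Stmts

set_option autoImplicit false

namespace Pool.Agent.Helper18.NF

open Polynomial

theorem gin_le {L : Type} [NormedField L] [IsUltrametricDist L] (F : L[X])
    (hF : ∀ i, ‖F.coeff i‖ ≤ 1) (z : L) (hz : ‖z‖ ≤ 1) : ‖F.eval z‖ ≤ 1 := by
  rw [eval_eq_sum_range]
  apply IsUltrametricDist.norm_sum_le_of_forall_le_of_nonneg zero_le_one
  intro i _
  rw [norm_mul, norm_pow]
  exact mul_le_one₀ (hF i) (by positivity) (pow_le_one₀ (norm_nonneg _) hz)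

theorem gin_top {L : Type} [NormedField L] [IsUltrametricDist L] (F : L[X])
    (hF : ∀ i, ‖F.coeff i‖ ≤ 1) (h1 : ‖F.leadingCoeff‖ = 1) (z : L) (hz : 1 < ‖z‖) :
    ‖F.eval z‖ = ‖z‖ ^ F.natDegree := by
  rw [eval_eq_sum_range, Finset.sum_range_succ]
  have h2 : ‖F.coeff F.natDegree * z ^ F.natDegree‖ = ‖z‖ ^ F.natDegree := by
    rw [norm_mul, norm_pow]
    have : ‖F.coeff F.natDegree‖ = 1 := h1
    rw [this, one_mul]
  by_cases hd : F.natDegree = 0
  · rw [hd]
    simp only [Finset.range_zero, Finset.sum_empty, zero_add, pow_zero, mul_one]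
    rw [← h1, Polynomial.leadingCoeff, hd]
  · have h3 : ‖∑ i ∈ Finset.range F.natDegree, F.coeff i * z ^ i‖ ≤ ‖z‖ ^ (F.natDegree - 1) := by
      apply IsUltrametricDist.norm_sum_le_of_forall_le_of_nonneg (by positivity)
      intro i hi
      rw [Finset.mem_range] at hi
      rw [norm_mul, norm_pow]
      calc ‖F.coeff i‖ * ‖z‖ ^ i ≤ 1 * ‖z‖ ^ i := by
            apply mul_le_mul_of_nonneg_right (hF i) (by positivity)
        _ = ‖z‖ ^ i := one_mul _
        _ ≤ ‖z‖ ^ (F.natDegree - 1) := pow_le_pow_right₀ hz.le (by omega)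
    have h4 : ‖z‖ ^ (F.natDegree - 1) < ‖z‖ ^ F.natDegree := pow_lt_pow_right₀ hz (by omega)
    have h5 : ‖∑ i ∈ Finset.range F.natDegree, F.coeff i * z ^ i‖ <
        ‖F.coeff F.natDegree * z ^ F.natDegree‖ := by
      rw [h2]
      exact lt_of_le_of_lt h3 h4
    rw [IsUltrametricDist.norm_add_eq_max_of_norm_ne_norm h5.ne, max_eq_right h5.le, h2]

theorem gin_pow {L : Type} [NormedField L] [IsUltrametricDist L] (z w : L) (hz : ‖z‖ ≤ 1)
    (hw : ‖w‖ ≤ 1) (i : ℕ) : ‖z ^ i - w ^ i‖ ≤ ‖z - w‖ := by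
  induction i with
  | zero => simp
  | succ i ih =>
    have : z ^ (i + 1) - w ^ (i + 1) = z ^ i * (z - w) + (z ^ i - w ^ i) * w := by ring
    rw [this]
    refine (IsUltrametricDist.norm_add_le_max _ _).trans (max_le ?_ ?_)
    · rw [norm_mul, norm_pow]
      calc ‖z‖ ^ i * ‖z - w‖ ≤ 1 * ‖z - w‖ :=
            mul_le_mul_of_nonneg_right (pow_le_one₀ (norm_nonneg _) hz) (norm_nonneg _)
        _ = ‖z - w‖ := one_mul _
    · rw [norm_mul]
      calc ‖z ^ i - w ^ i‖ * ‖w‖ ≤ ‖z - w‖ * 1 :=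
            mul_le_mul ih hw (norm_nonneg _) (norm_nonneg _)
        _ = ‖z - w‖ := mul_one _

theorem gin_cong {L : Type} [NormedField L] [IsUltrametricDist L] (F : L[X])
    (hF : ∀ i, ‖F.coeff i‖ ≤ 1) (z w : L) (hz : ‖z‖ ≤ 1) (hw : ‖w‖ ≤ 1) :
    ‖F.eval z - F.eval w‖ ≤ ‖z - w‖ := by
  rw [eval_eq_sum_range, eval_eq_sum_range, ← Finset.sum_sub_distrib]
  apply IsUltrametricDist.norm_sum_le_of_forall_le_of_nonneg (norm_nonneg _)
  intro i _
  rw [← mul_sub, norm_mul]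
  calc ‖F.coeff i‖ * ‖z ^ i - w ^ i‖ ≤ 1 * ‖z - w‖ :=
        mul_le_mul (hF i) (gin_pow z w hz hw i) (norm_nonneg _) zero_le_one
    _ = ‖z - w‖ := one_mul _

theorem st_GIN : ST_GIN := by
  intro k _ A B hD p _ σ hG
  obtain ⟨hA, hB, hlA, hlB, U, V, hUV, hU, hV⟩ := hG
  have cA : ∀ i, ‖(A.map σ).coeff i‖ ≤ 1 := fun i => by rw [coeff_map]; exact hA i
  have cB : ∀ i, ‖(B.map σ).coeff i‖ ≤ 1 := fun i => by rw [coeff_map]; exact hB i
  have cU : ∀ i, ‖(U.map σ).coeff i‖ ≤ 1 := fun i => by rw [coeff_map]; exact hU i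
  have cV : ∀ i, ‖(V.map σ).coeff i‖ ≤ 1 := fun i => by rw [coeff_map]; exact hV i
  have lA : ‖(A.map σ).leadingCoeff‖ = 1 := by rw [leadingCoeff_map]; exact hlA
  have lB : ‖(B.map σ).leadingCoeff‖ = 1 := by rw [leadingCoeff_map]; exact hlB
  refine ⟨?_, ?_, ?_⟩
  · intro z hz
    refine ⟨gin_le _ cA z hz, gin_le _ cB z hz, ?_⟩
    intro hlt
    apply le_antisymm (gin_le _ cA z hz)
    by_contra hcon
    push Not at hcon
    have h1 : (U.map σ).eval z * (A.map σ).eval z + (V.map σ).eval z * (B.map σ).eval z = 1 := by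
      have := congrArg (fun P => (Polynomial.map σ P).eval z) hUV
      simpa using this
    have h2 : ‖(U.map σ).eval z * (A.map σ).eval z + (V.map σ).eval z * (B.map σ).eval z‖ < 1 := by
      refine lt_of_le_of_lt (IsUltrametricDist.norm_add_le_max _ _) (max_lt ?_ ?_)
      · rw [norm_mul]
        calc _ ≤ 1 * ‖(A.map σ).eval z‖ :=
              mul_le_mul_of_nonneg_right (gin_le _ cU z hz) (norm_nonneg _)
          _ < 1 := by rw [one_mul]; exact hcon
      · rw [norm_mul]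
        calc _ ≤ 1 * ‖(B.map σ).eval z‖ :=
              mul_le_mul_of_nonneg_right (gin_le _ cV z hz) (norm_nonneg _)
          _ < 1 := by rw [one_mul]; exact hlt
    rw [h1, norm_one] at h2
    exact lt_irrefl _ h2
  · intro z hz
    have h1 := gin_top _ cA lA z hz
    have h2 := gin_top _ cB lB z hz
    rw [natDegree_map] at h1 h2
    exact ⟨h1, h2⟩
  · intro z z' hz hz' hlt
    exact ⟨lt_of_le_of_lt (gin_cong _ cA z z' hz hz') hlt,
      lt_of_le_of_lt (gin_cong _ cB z z' hz hz') hlt⟩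

end Pool.Agent.Helper18.NF
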