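import Pool.Agent.Helper18.NF.Stmts
import Pool.Agent.Helper86.NF.GIN

set_option autoImplicit false

namespace Pool.Agent.Helper18.NF

open Polynomial

theorem alm_cast (p : ℕ) [Fact p.Prime] (n : ℤ) : ‖(n : ℂ_[p])‖ = ‖(n : ℚ_[p])‖ := by
  have h := PadicComplex.norm_extends' p (n : ℚ_[p])
  rw [← h]
  congr 1
  exact (map_intCast (algebraMap ℚ_[p] ℂ_[p]) n).symm

theorem alm_le (p : ℕ) [Fact p.Prime] (n : ℤ) : ‖(n : ℂ_[p])‖ ≤ 1 := by
  rw [alm_cast]
  exact Padic.norm_int_le_one n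

theorem alm_one (p : ℕ) [Fact p.Prime] (n : ℤ) (hn : ¬ (p : ℤ) ∣ n) : ‖(n : ℂ_[p])‖ = 1 := by
  apply le_antisymm (alm_le p n)
  by_contra h
  push Not at h
  rw [alm_cast] at h
  exact hn (Padic.norm_intCast_lt_one_iff.1 h)

theorem alm_elt (k : Type) [Field k] [NumberField k] (a : k) (ha : a ≠ 0) : ∃ S : Finset ℕ,
    ∀ (p : ℕ) [Fact p.Prime], p ∉ S → ∀ σ : k →+* ℂ_[p], ‖σ a‖ = 1 := by
  have hQ : IsAlgebraic ℚ a := Algebra.IsAlgebraic.isAlgebraic a
  have hZ : IsAlgebraic ℤ a := (IsFractionRing.isAlgebraic_iff ℤ ℚ k).2 hQ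
  obtain ⟨q, h0, hq⟩ := hZ.exists_nonzero_coeff_and_aeval_eq_zero (mem_nonZeroDivisors_of_ne_zero ha)
  have hlc : q.leadingCoeff ≠ 0 := by
    rw [Ne, leadingCoeff_eq_zero]
    rintro rfl
    simp at h0
  refine ⟨q.leadingCoeff.natAbs.primeFactors ∪ (q.coeff 0).natAbs.primeFactors, ?_⟩
  intro p hp hpS σ
  rw [Finset.mem_union, not_or] at hpS
  have hn : ∀ m : ℤ, m ≠ 0 → p ∉ m.natAbs.primeFactors → ¬ (p : ℤ) ∣ m := by
    intro m hm hpm hd
    apply hpm
    rw [Nat.mem_primeFactors]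
    exact ⟨hp.out, Int.natCast_dvd.1 hd, Int.natAbs_ne_zero.2 hm⟩
  have h1 := alm_one p _ (hn _ hlc hpS.1)
  have h2 := alm_one p _ (hn _ h0 hpS.2)
  have cF : ∀ i, ‖(q.map (Int.castRingHom ℂ_[p])).coeff i‖ ≤ 1 := by
    intro i
    rw [coeff_map]
    exact alm_le p _
  have lF : ‖(q.map (Int.castRingHom ℂ_[p])).leadingCoeff‖ = 1 := by
    rw [leadingCoeff_map_of_leadingCoeff_ne_zero]
    · exact h1
    · intro h
      rw [eq_intCast] at h
      rw [h, norm_zero] at h1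
      exact zero_ne_one h1
  have hev : (q.map (Int.castRingHom ℂ_[p])).eval (σ a) = 0 := by
    have h3 := congrArg σ hq
    rw [map_zero, aeval_def, hom_eval₂] at h3
    rw [eval_map]
    have h4 : σ.comp (algebraMap ℤ k) = Int.castRingHom ℂ_[p] := RingHom.ext_int _ _
    rwa [h4] at h3
  rcases lt_trichotomy ‖σ a‖ 1 with h | h | h
  · exfalso
    have h3 := gin_cong _ cF (σ a) 0 h.le (by rw [norm_zero]; exact zero_le_one)
    rw [hev, zero_sub, norm_neg, sub_zero, ← coeff_zero_eq_eval_zero, coeff_map, eq_intCast, h2] at h3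
    linarith
  · exact h
  · exfalso
    have h3 := gin_top _ cF lF (σ a) h
    rw [hev, norm_zero] at h3
    have : 0 < ‖σ a‖ ^ (q.map (Int.castRingHom ℂ_[p])).natDegree := by positivity
    linarith

theorem alm_fin (k : Type) [Field k] [NumberField k] (T : Finset k) : ∃ S : Finset ℕ,
    ∀ (p : ℕ) [Fact p.Prime], p ∉ S → ∀ σ : k →+* ℂ_[p], ∀ a ∈ T, a ≠ 0 → ‖σ a‖ = 1 := by
  classical
  induction T using Finset.induction_on with
  | empty => exact ⟨∅, by simp⟩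
  | insert a T _ ih =>
    obtain ⟨S, hS⟩ := ih
    by_cases ha : a = 0
    · refine ⟨S, ?_⟩
      intro p _ hp σ b hb hb0
      rw [Finset.mem_insert] at hb
      rcases hb with rfl | hb
      · exact absurd ha hb0
      · exact hS p hp σ b hb hb0
    · obtain ⟨S', hS'⟩ := alm_elt k a ha
      refine ⟨S ∪ S', ?_⟩
      intro p _ hp σ b hb hb0
      rw [Finset.mem_union, not_or] at hp
      rw [Finset.mem_insert] at hb
      rcases hb with rfl | hb
      · exact hS' p hp.2 σ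
      · exact hS p hp.1 σ b hb hb0

theorem alm_poly (k : Type) [Field k] [NumberField k] (F : k[X]) : ∃ S : Finset ℕ,
    ∀ (p : ℕ) [Fact p.Prime], p ∉ S → ∀ σ : k →+* ℂ_[p],
      (∀ i, ‖σ (F.coeff i)‖ ≤ 1) ∧ (F ≠ 0 → ‖σ F.leadingCoeff‖ = 1) := by
  classical
  obtain ⟨S, hS⟩ := alm_fin k (F.support.image F.coeff)
  refine ⟨S, ?_⟩
  intro p _ hp σ
  constructor
  · intro i
    by_cases h : F.coeff i = 0
    · rw [h, map_zero, norm_zero]
      exact zero_le_one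
    · exact (hS p hp σ _ (Finset.mem_image_of_mem _ (mem_support_iff.2 h)) h).le
  · intro hF
    have h : F.coeff F.natDegree ≠ 0 := leadingCoeff_ne_zero.2 hF
    exact hS p hp σ _ (Finset.mem_image_of_mem _ (mem_support_iff.2 h)) h

theorem st_ALM : ST_ALM := by
  intro k _ _ A B hD
  classical
  obtain ⟨U, V, hUV⟩ := hD.cop
  obtain ⟨S1, h1⟩ := alm_poly k A
  obtain ⟨S2, h2⟩ := alm_poly k B
  obtain ⟨S3, h3⟩ := alm_poly k U
  obtain ⟨S4, h4⟩ := alm_poly k V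
  have hB : B ≠ 0 := by
    rintro rfl
    have := hD.pos
    simp at this
  have hA : A ≠ 0 := by
    rintro rfl
    have := hD.deg
    simp at this
  refine ⟨S1 ∪ S2 ∪ S3 ∪ S4, ?_⟩
  intro p _ hp σ
  simp only [Finset.mem_union, not_or] at hp
  exact ⟨(h1 p hp.1.1.1 σ).1, (h2 p hp.1.1.2 σ).1, (h1 p hp.1.1.1 σ).2 hA, (h2 p hp.1.1.2 σ).2 hB,
    U, V, hUV, (h3 p hp.1.2 σ).1, (h4 p hp.2 σ).1⟩

end Pool.Agent.Helper18.NF
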