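import Pool.Agent.Helper18.NF.Stmts

set_option autoImplicit false

namespace Pool.Agent.Helper18.NF

open Polynomial

theorem cpt_alt (K R : Type) [Field K] [CommRing R] [Algebra K R] (x : R)
    (hex : ∀ F : K[X], F ≠ 0 → aeval x F ≠ 0) :
    ∃ (L : Type) (_ : Field L) (_ : Algebra K L) (ψ : R →ₐ[K] L), ¬ IsAlgebraic K (ψ x) := by
  let M : Submonoid R :=
    { carrier := {r | ∃ F : K[X], F ≠ 0 ∧ aeval x F = r}
      mul_mem' := by
        rintro a b ⟨F, hF, rfl⟩ ⟨G, hG, rfl⟩
        exact ⟨F * G, mul_ne_zero hF hG, by rw [map_mul]⟩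
      one_mem' := ⟨1, one_ne_zero, by rw [map_one]⟩ }
  have hdisj : Disjoint ((⊥ : Ideal R) : Set R) (M : Set R) := by
    rw [Set.disjoint_left]
    rintro a ha ⟨F, hF, rfl⟩
    exact hex F hF (by simpa using ha)
  obtain ⟨q, hq, -, hqM⟩ := Ideal.exists_le_prime_disjoint (⊥ : Ideal R) M hdisj
  have := hq
  refine ⟨FractionRing (R ⧸ q), inferInstance, inferInstance,
    (IsScalarTower.toAlgHom K (R ⧸ q) (FractionRing (R ⧸ q))).comp (Ideal.Quotient.mkₐ K q), ?_⟩
  rintro ⟨F, hF, hz⟩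
  rw [aeval_algHom_apply, AlgHom.comp_apply, IsScalarTower.coe_toAlgHom',
    Ideal.Quotient.mkₐ_eq_mk] at hz
  have h3 : Ideal.Quotient.mk q (aeval x F) = 0 :=
    (IsFractionRing.injective (R ⧸ q) (FractionRing (R ⧸ q))) (by rw [hz, map_zero])
  have h5 : aeval x F ∈ q := Ideal.Quotient.eq_zero_iff_mem.1 h3
  rw [Set.disjoint_left] at hqM
  exact hqM h5 ⟨F, hF, rfl⟩

theorem st_CPT : ST_CPT := by
  intro K _ τ S t hS
  by_cases hex : ∃ F : K[X], F ≠ 0 ∧
    aeval (Ideal.Quotient.mk (Ideal.span S) (MvPolynomial.X t : MvPolynomial τ K)) F = 0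
  · obtain ⟨F, hF, hx⟩ := hex
    refine ⟨F, hF, ?_⟩
    intro L _ _ y hy
    have hJ : ∀ a : MvPolynomial τ K, a ∈ Ideal.span S → MvPolynomial.aeval y a = 0 := by
      intro a ha
      have : Ideal.span S ≤ RingHom.ker (MvPolynomial.aeval y : MvPolynomial τ K →ₐ[K] L) := by
        apply Ideal.span_le.2
        intro q hq
        exact hy q hq
      exact this ha
    have hφ : (Ideal.Quotient.liftₐ (Ideal.span S) (MvPolynomial.aeval y) hJ)
        (Ideal.Quotient.mk (Ideal.span S) (MvPolynomial.X t : MvPolynomial τ K)) = y t := by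
      change (MvPolynomial.aeval y) (MvPolynomial.X t) = y t
      simp
    have := congrArg (Ideal.Quotient.liftₐ (Ideal.span S) (MvPolynomial.aeval y) hJ) hx
    rw [map_zero, ← aeval_algHom_apply, hφ] at this
    exact this
  · exfalso
    push Not at hex
    obtain ⟨L, _, _, ψ, hψ⟩ := cpt_alt K _ _ hex
    apply hψ
    let ψ' : MvPolynomial τ K →ₐ[K] L := ψ.comp (Ideal.Quotient.mkₐ K (Ideal.span S))
    have h1 : (MvPolynomial.aeval (fun s => ψ' (MvPolynomial.X s)) : MvPolynomial τ K →ₐ[K] L) = ψ' := by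
      apply MvPolynomial.algHom_ext
      intro s
      simp
    have h2 := hS L (fun s => ψ' (MvPolynomial.X s)) (by
      intro a ha
      rw [h1]
      have : (Ideal.Quotient.mkₐ K (Ideal.span S)) a = 0 := by
        rw [Ideal.Quotient.mkₐ_eq_mk]
        exact Ideal.Quotient.eq_zero_iff_mem.2 (Ideal.subset_span ha)
      change ψ ((Ideal.Quotient.mkₐ K (Ideal.span S)) a) = 0
      rw [this, map_zero])
    exact h2

end Pool.Agent.Helper18.NF
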