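import Pool.Agent.Helper18.NF.Stmts

set_option autoImplicit false

namespace Pool.Agent.Helper18.NF

open Polynomial

theorem dsp_lin (x : AlgebraicClosure ℚ) : ∃ G : ℚ[X], G ≠ 0 ∧
    (X - C x) ∣ G.map (algebraMap ℚ (AlgebraicClosure ℚ)) := by
  have hx : IsIntegral ℚ x := IsAlgebraic.isIntegral ((AlgebraicClosure.isAlgebraic ℚ).isAlgebraic x)
  refine ⟨minpoly ℚ x, minpoly.ne_zero hx, ?_⟩
  rw [dvd_iff_isRoot, IsRoot, eval_map, ← aeval_def, minpoly.aeval]

theorem st_DSP : ST_DSP := by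
  intro F hF
  have hs : F.Splits := IsAlgClosed.splits F
  have key : ∀ s : Multiset (AlgebraicClosure ℚ), ∃ G : ℚ[X], G ≠ 0 ∧
      (s.map fun x => (X - C x)).prod ∣ G.map (algebraMap ℚ (AlgebraicClosure ℚ)) := by
    intro s
    induction s using Multiset.induction with
    | empty => exact ⟨1, one_ne_zero, by simp⟩
    | cons a s ih =>
      obtain ⟨G, hG, hd⟩ := ih
      obtain ⟨G', hG', hd'⟩ := dsp_lin a
      refine ⟨G' * G, mul_ne_zero hG' hG, ?_⟩
      rw [Multiset.map_cons, Multiset.prod_cons, Polynomial.map_mul]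
      exact mul_dvd_mul hd' hd
  obtain ⟨G, hG, hd⟩ := key F.roots
  refine ⟨G, hG, ?_⟩
  rw [hs.eq_prod_roots]
  have hu : IsUnit (C F.leadingCoeff) := by
    rw [isUnit_C]
    exact isUnit_iff_ne_zero.2 (leadingCoeff_ne_zero.2 hF)
  exact (hu.mul_left_dvd).2 hd

end Pool.Agent.Helper18.NF
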