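import Pool.Agent.Helper18.NF.Stmts

set_option autoImplicit false

namespace Pool.Agent.Helper18.NF

theorem st_WND : ST_WND := by
  intro n out hmono
  have hm : ∀ i s t, s ≤ t → out i s → out i t := by
    intro i s t hst h
    induction hst with
    | refl => exact h
    | step _ ih => exact hmono i _ ih
  by_contra hcon
  push Not at hcon
  have h1 : ∀ a : Fin (n + 1), ∃ i : Fin n, ¬ out i (a.1 * (n + 1)) ∧
      out i ((a.1 + 1) * (n + 1)) := by
    intro a
    obtain ⟨i, h1, j, hj, h2⟩ := hcon a.1 (by omega)
    refine ⟨i, h1, hm i _ _ ?_ h2⟩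
    have : (a.1 + 1) * (n + 1) = a.1 * (n + 1) + (n + 1) := by ring
    omega
  choose f hf using h1
  obtain ⟨a, b, hab, hfab⟩ := Fintype.exists_ne_map_eq_of_card_lt f (by simp)
  have key : ∀ a b : Fin (n + 1), a < b → f a = f b → False := by
    intro a b hlt heq
    apply (hf b).1
    rw [← heq]
    apply hm _ _ _ ?_ (hf a).2
    apply Nat.mul_le_mul_right
    exact hlt
  rcases lt_or_gt_of_ne hab with h | h
  · exact key a b h hfab
  · exact key b a h hfab.symm

end Pool.Agent.Helper18.NF
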